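import Pool.Agent.MWN.StmtsH

/-!
# Block MWN, row NPH: the pentagon in base (h)
-/

set_option autoImplicit false

namespace Pool.Agent.MWN.H41

open Pool.Agent.Helper14_MV Pool.Agent.Helper2_MV Pool.Agent.MVO Pool.Agent.MWL Pool.Agent.MWS
  Pool.Agent.MWF Pool.Agent.MWN

theorem mem01 {c : ℕ} {p q : ℕ} (h : c ∈ List.replicate p 0 ++ List.replicate q 1) :
    c = 0 ∨ c = 1 := by
  rcases List.mem_append.1 h with h | h
  · exact Or.inl (List.eq_of_mem_replicate h)
  · exact Or.inr (List.eq_of_mem_replicate h)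

theorem two01_wd (k i : ℕ) (a b : ℕ → ℕ) (st : Bool) : Two01 k (wd i a b st) := by
  intro j _ c hc
  unfold wd at hc
  split_ifs at hc
  · rcases List.mem_append.1 hc with h | h
    · exact Or.inr (List.eq_of_mem_replicate h)
    · exact Or.inl (List.eq_of_mem_replicate h)
  · exact mem01 hc

theorem count0_wd (i : ℕ) (a b : ℕ → ℕ) (st : Bool) (j : ℕ) :
    (wd i a b st j).count 0 = a j := by
  unfold wd
  split_ifs <;> simp [List.count_replicate]

theorem count1_wd (i : ℕ) (a b : ℕ → ℕ) (st : Bool) (j : ℕ) :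
    (wd i a b st j).count 1 = b j := by
  unfold wd
  split_ifs <;> simp [List.count_replicate]

theorem ty0_wd (i : ℕ) (a b : ℕ → ℕ) (st : Bool) : ty (wd i a b st) 0 = a := by
  funext j
  exact count0_wd i a b st j

theorem ty1_wd (i : ℕ) (a b : ℕ → ℕ) (st : Bool) : ty (wd i a b st) 1 = b := by
  funext j
  exact count1_wd i a b st j

theorem count_ne_wd (i : ℕ) (a b : ℕ → ℕ) (st : Bool) (j c : ℕ) (h0 : c ≠ 0) (h1 : c ≠ 1) :
    (wd i a b st j).count c = 0 := by
  rw [List.count_eq_zero]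
  intro hc
  rcases two01_wd j i a b st j le_rfl c hc with h | h
  · exact h0 h
  · exact h1 h

theorem count_wd (i : ℕ) (a b : ℕ → ℕ) (st st' : Bool) (j c : ℕ) :
    (wd i a b st j).count c = (wd i a b st' j).count c := by
  by_cases h0 : c = 0
  · subst h0
    rw [count0_wd, count0_wd]
  by_cases h1 : c = 1
  · subst h1
    rw [count1_wd, count1_wd]
  rw [count_ne_wd i a b st j c h0 h1, count_ne_wd i a b st' j c h0 h1]

/-- all `c` before all `d` -/
theorem fst_sep (c d p q : ℕ) (h : c ≠ d) :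
    ¬ List.Sublist [d, c] (List.replicate p c ++ List.replicate q d) := by
  intro hs
  have h1 : ([d, c] : List ℕ) = [d] ++ [c] := rfl
  rw [List.sublist_append_iff] at hs
  obtain ⟨l1, l2, he, hl1, hl2⟩ := hs
  have hm1 : ∀ x ∈ l1, x = c := fun x hx => List.eq_of_mem_replicate (hl1.subset hx)
  have hm2 : ∀ x ∈ l2, x = d := fun x hx => List.eq_of_mem_replicate (hl2.subset hx)
  cases l1 with
  | nil =>
    simp only [List.nil_append] at he
    have := hm2 c (by rw [← he]; simp)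
    exact h this
  | cons x l1 =>
    simp only [List.cons_append, List.cons.injEq] at he
    have := hm1 x (by simp)
    rw [← he.1] at this
    exact h this.symm

theorem fst_wd (i : ℕ) (a b : ℕ → ℕ) (st : Bool) : Fst st (wd i a b st i) := by
  unfold Fst wd
  cases st
  · simp only [Bool.false_eq_true, and_false, if_false]
    exact fst_sep 0 1 _ _ (by decide)
  · simp only [and_self, if_true]
    exact fst_sep 1 0 _ _ (by decide)

theorem sub_sep (c d p q : ℕ) (hp : 1 ≤ p) (hq : 1 ≤ q) :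
    List.Sublist [c, d] (List.replicate p c ++ List.replicate q d) := by
  have h1 : ([c, d] : List ℕ) = [c] ++ [d] := rfl
  rw [h1]
  refine List.Sublist.append ?_ ?_
  · rw [List.singleton_sublist]
    exact List.mem_replicate.2 ⟨by omega, rfl⟩
  · rw [List.singleton_sublist]
    exact List.mem_replicate.2 ⟨by omega, rfl⟩

theorem not_fst_wd (i : ℕ) (a b : ℕ → ℕ) (st : Bool) (ha : 1 ≤ a i) (hb : 1 ≤ b i) :
    ¬ Fst st (wd i a b (!st) i) := by
  unfold Fst wd
  cases st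
  · simp only [Bool.not_false, and_self, if_true, Bool.false_eq_true, if_false, not_not]
    exact sub_sep 1 0 _ _ hb ha
  · simp only [Bool.not_true, Bool.false_eq_true, and_false, if_false, if_true, not_not]
    exact sub_sep 0 1 _ _ ha hb

theorem sat_h {A : Cd} {n : ℕ} (h : A.sat n = true) : min n 2 ≤ A.h := by
  cases A <;> simp [Cd.sat, Cd.h] at h ⊢ <;> omega

theorem deg_h {k : ℕ} {A : ℕ → Cd} {a : ℕ → ℕ} (h : ∀ j ≤ k, (A j).sat (a j) = true)
    (h2 : 2 ≤ deg k a) : 2 ≤ deg k (fun j => (A j).h) := by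
  by_cases h3 : ∃ j ≤ k, 2 ≤ a j
  · obtain ⟨j, hj, h4⟩ := h3
    have h5 := sat_h (h j hj)
    have h6 : (A j).h ≤ deg k (fun j => (A j).h) := by
      unfold deg
      exact Finset.single_le_sum (f := fun j => (A j).h) (fun i _ => Nat.zero_le _)
        (Finset.mem_range.2 (by omega))
    omega
  · push Not at h3
    refine h2.trans ?_
    unfold deg
    refine Finset.sum_le_sum fun j hj => ?_
    have hj' : j ≤ k := by
      have := Finset.mem_range.1 hj
      omega
    have h5 := sat_h (h j hj')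
    have h6 := h3 j hj'
    show a j ≤ (A j).h
    omega

theorem ne_z {A : Cd} {n : ℕ} (h : A.sat n = true) (hn : 1 ≤ n) : A ≠ Cd.z := by
  rintro rfl
  simp [Cd.sat] at h
  omega

theorem pos_of {A : Cd} {n : ℕ} (h : A.sat n = true) (h1 : A ≠ Cd.z) (h2 : A ≠ Cd.any) :
    1 ≤ n := by
  cases A <;> simp [Cd.sat] at h h1 h2 ⊢ <;> omega

theorem mem_of_not_fst {st : Bool} {l : List ℕ} (h : ¬ Fst st l) : 0 ∈ l ∧ 1 ∈ l := by
  unfold Fst at h
  rw [not_not] at h
  cases st
  · simp only [Bool.false_eq_true, if_false] at h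
    exact ⟨h.subset (by simp), h.subset (by simp)⟩
  · simp only [if_true] at h
    exact ⟨h.subset (by simp), h.subset (by simp)⟩

theorem nph (hnin : NinStmt) (hnka : NkaStmt) (hnvg : NvgStmt) (hnpe : NpeStmt) (hnib : NibStmt)
    (hnhb : NhbStmt) (hnex : NexStmt) : NphStmt := by
  intro β hb hiso hmod k i A1 B1 A2 B2 st a a' b b' hpen hA1 hB1 hA2 hB2 cA1 cB1 cA2 cB2
  by_contra hno
  push Not at hno
  obtain ⟨hno1, hno2⟩ := hno
  obtain ⟨_, hnc, hcap, _, _, _⟩ := hnhb β hb hiso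
  unfold penB at hpen
  simp only [Bool.and_eq_true, List.all_eq_true, List.mem_range, beq_iff_eq, Bool.or_eq_true,
    Nat.ble_eq] at hpen
  obtain ⟨⟨⟨⟨hinc, ⟨⟨hk1, hk2⟩, hk3⟩, hk4⟩, hall⟩, ⟨⟨hda, hda'⟩, hdb⟩, hdb'⟩, ⟨hai, hbi⟩, hik⟩ :=
    hpen
  have hall' : ∀ j ≤ k, ((a j == 0) = (a' j == 0)) ∧ ((b j == 0) = (b' j == 0)) ∧
      (A1 j).sat (a' j) = true ∧ (A2 j).sat (a' j) = true ∧ (B1 j).sat (b' j) = true ∧
      (B2 j).sat (b' j) = true ∧ (j = i ∨ ((A1 j = Cd.z ∨ B1 j = Cd.z) ∧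
        (A2 j = Cd.z ∨ B2 j = Cd.z))) := by
    intro j hj
    obtain ⟨⟨⟨⟨⟨⟨h1, h2⟩, h3⟩, h4⟩, h5⟩, h6⟩, h7⟩ := hall j (by omega)
    exact ⟨h1, h2, h3, h4, h5, h6, h7⟩
  have sA1 : ∀ j ≤ k, (A1 j).sat (a' j) = true := fun j hj => (hall' j hj).2.2.1
  have sA2 : ∀ j ≤ k, (A2 j).sat (a' j) = true := fun j hj => (hall' j hj).2.2.2.1
  have sB1 : ∀ j ≤ k, (B1 j).sat (b' j) = true := fun j hj => (hall' j hj).2.2.2.2.1
  have sB2 : ∀ j ≤ k, (B2 j).sat (b' j) = true := fun j hj => (hall' j hj).2.2.2.2.2.1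
  have on1 : Onl k i A1 B1 := fun j hj hne => by
    rcases (hall' j hj).2.2.2.2.2.2 with h | h
    · exact absurd h hne
    · exact h.1
  have on2 : Onl k i A2 B2 := fun j hj hne => by
    rcases (hall' j hj).2.2.2.2.2.2 with h | h
    · exact absurd h hne
    · exact h.2
  have supa : ∀ j ≤ k, (a j = 0 ↔ a' j = 0) := fun j hj => by
    have h := (hall' j hj).1
    constructor
    · intro h0
      rw [h0] at h
      simpa using h.symm
    · intro h0
      rw [h0] at h
      simpa using h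
  have supb : ∀ j ≤ k, (b j = 0 ↔ b' j = 0) := fun j hj => by
    have h := (hall' j hj).2.1
    constructor
    · intro h0
      rw [h0] at h
      simpa using h.symm
    · intro h0
      rw [h0] at h
      simpa using h
  -- the exchange argument
  have key : ∀ A B : ℕ → Cd, Onl k i A B → A i ≠ Cd.any → B i ≠ Cd.any → A i ≠ Cd.z →
      B i ≠ Cd.z → 2 ≤ deg k (fun j => (A j).h) → 2 ≤ deg k (fun j => (B j).h) →
      Clo β k A → Clo β k B → ¬ RR β (asm k (cs i A B st)) (asm k (cn i A B st)) →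
        β ≤ LC k A B (Fst st) i := by
    intro A B hon hAa hBa hAz hBz h1 h2 cA cB hn
    refine hnvg β hcap hnc k A B (Fst st) i cA cB ?_
    intro U V hU hV sU0 sU1 sV0 sV1 hr hf
    by_contra hf'
    have hU0 : 0 ∈ U i := by
      have := pos_of (sU0 i hik) hAz hAa
      exact List.count_pos_iff.1 this
    have hU1 : 1 ∈ U i := by
      have := pos_of (sU1 i hik) hBz hBa
      exact List.count_pos_iff.1 this
    exact hn (hnex β hb k i A B st U V hik hon hAz hBz h1 h2 hU hV sU0 sU1 sV0 sV1 hU0 hU1 hr hf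
      hf')
  have le1 : β ≤ LC k A1 B1 (Fst st) i := key A1 B1 on1 hA1 hB1 (ne_z (sA1 i hik) hai)
    (ne_z (sB1 i hik) hbi) (deg_h sA1 hda') (deg_h sB1 hdb') cA1 cB1 hno1
  have le2 : β ≤ LC k A2 B2 (Fst st) i := key A2 B2 on2 hA2 hB2 (ne_z (sA2 i hik) hai)
    (ne_z (sB2 i hik) hbi) (deg_h sA2 hda') (deg_h sB2 hdb') cA2 cB2 hno2
  have l1 : L1 (LC k A2 B2 (Fst st) i) k a a' := hnka k k A2 B2 st i a a' on2 supa hda hda'
    (hnib.2 _ _ _ _ _ hk1) (hnib.2 _ _ _ _ _ hk2)
  have l2 : L1 (LC k A2 B2 (Fst st) i) k b b' := hnka k k A2 B2 st i b b' on2 supb hdb hdb'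
    (hnib.2 _ _ _ _ _ hk3) (hnib.2 _ _ _ _ _ hk4)
  have r1 : RR (LC k A1 B1 (Fst st) i) (asm k (wd i a b st)) (asm k (wd i a b (!st))) := by
    refine hnin k k A1 B1 (Fst st) i (wd i a b st) (wd i a b (!st)) (two01_wd k i a b st)
      (two01_wd k i a b _) (fun j _ c => count_wd i a b st _ j c) ?_ ?_ ?_
    · rw [ty0_wd]
      exact hda
    · rw [ty1_wd]
      exact hdb
    · rw [ty0_wd, ty1_wd]
      exact hnib.1 _ _ _ _ _ _ hinc
  have h := hnpe β hcap hnc hmod k i A1 B1 A2 B2 (Fst st) st a a' b b' hik le1 le2 hda hda' hdb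
    hdb' l1 l2 r1 (fun c hc => ⟨cA1 a' c sA1 hc, cA2 a' c sA2 hc⟩)
    (fun c hc => ⟨cB1 b' c sB1 hc, cB2 b' c sB2 hc⟩) (fst_wd i a' b' st)
  exact not_fst_wd i a' b' st hai hbi h

end Pool.Agent.MWN.H41
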